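import Pool.Agent.Helper8.ZT.Defs
import Pool.Agent.Helper23.SP.Asym2

set_option autoImplicit false

/-!
# The asymptotic form with zero tests
-/

namespace Pool.Agent.Helper7.ZT

open Finset
open Pool.Agent.Helper22.ETModel Pool.Agent.Helper22.TSModel
open Pool.Agent.Helper23.SP Pool.Agent.Helper8.ZT

lemma size_real3 {s k K x n e : ℕ} {σ δ Bc F : ℝ} (hn1 : (1 : ℝ) ≤ n)
    (hK1 : (1 : ℝ) ≤ K) (hKn : (K : ℝ) ≤ (n : ℝ) ^ δ) (hxle2 : (x : ℝ) ≤ (n : ℝ) ^ (σ + 3 * δ))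
    (hF : F ≤ Bc * (K : ℝ) ^ (s + 1) * (n : ℝ) ^ e)
    (hBc : 0 ≤ Bc) (hb2 : (3 * (s : ℝ)) ^ (2 * (s + 1) * k) * Bc ≤ (n : ℝ) ^ δ)
    (hδ2 : δ * (1 + (2 * (s + 1) * k + (s + 1)) + 6 * s * k) ≤
      300 - 2 * s - e - 2 * s * σ * k) :
    (3 * (s : ℝ) * K) ^ (2 * (s + 1) * k) * (x : ℝ) ^ (2 * s * k) *
        (n : ℝ) ^ (2 * s) * F ≤ (n : ℝ) ^ 300 := by
  have hn0 : (0 : ℝ) < n := by linarith
  have hKp : (K : ℝ) ^ (2 * (s + 1) * k + (s + 1)) ≤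
      (n : ℝ) ^ (δ * (2 * (s + 1) * k + (s + 1))) := by
    calc (K : ℝ) ^ (2 * (s + 1) * k + (s + 1)) ≤ ((n : ℝ) ^ δ) ^ (2 * (s + 1) * k + (s + 1)) :=
          pow_le_pow_left₀ (by positivity) hKn _
      _ = (n : ℝ) ^ (δ * (2 * (s + 1) * k + (s + 1))) := by
          rw [← Real.rpow_natCast ((n : ℝ) ^ δ), ← Real.rpow_mul hn0.le]
          push_cast
          ring_nf
  have hxp : (x : ℝ) ^ (2 * s * k) ≤ (n : ℝ) ^ ((σ + 3 * δ) * (2 * s * k)) := by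
    calc (x : ℝ) ^ (2 * s * k) ≤ ((n : ℝ) ^ (σ + 3 * δ)) ^ (2 * s * k) :=
          pow_le_pow_left₀ (by positivity) hxle2 _
      _ = (n : ℝ) ^ ((σ + 3 * δ) * (2 * s * k)) := by
          rw [← Real.rpow_natCast ((n : ℝ) ^ (σ + 3 * δ)), ← Real.rpow_mul hn0.le]
          push_cast
          ring_nf
  have h5 : (n : ℝ) ^ ((2 : ℝ) * s + e) = (n : ℝ) ^ (2 * s + e) := by
    rw [← Real.rpow_natCast]
    push_cast
    rfl
  have h6 : (n : ℝ) ^ δ * (n : ℝ) ^ (δ * (2 * (s + 1) * k + (s + 1))) *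
      (n : ℝ) ^ ((σ + 3 * δ) * (2 * s * k)) * (n : ℝ) ^ ((2 : ℝ) * s + e) ≤
      (n : ℝ) ^ (300 : ℝ) := by
    rw [← Real.rpow_add hn0, ← Real.rpow_add hn0, ← Real.rpow_add hn0]
    apply Real.rpow_le_rpow_of_exponent_le hn1
    linarith
  calc (3 * (s : ℝ) * K) ^ (2 * (s + 1) * k) * (x : ℝ) ^ (2 * s * k) * (n : ℝ) ^ (2 * s) * F
      ≤ (3 * (s : ℝ) * K) ^ (2 * (s + 1) * k) * (x : ℝ) ^ (2 * s * k) * (n : ℝ) ^ (2 * s) *
        (Bc * (K : ℝ) ^ (s + 1) * (n : ℝ) ^ e) := by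
        apply mul_le_mul_of_nonneg_left hF (by positivity)
    _ = (3 * (s : ℝ)) ^ (2 * (s + 1) * k) * Bc * (K : ℝ) ^ (2 * (s + 1) * k + (s + 1)) *
        (x : ℝ) ^ (2 * s * k) * (n : ℝ) ^ (2 * s + e) := by
        rw [mul_pow _ (K : ℝ), pow_add (K : ℝ), pow_add (n : ℝ)]
        ring
    _ ≤ (n : ℝ) ^ δ * (n : ℝ) ^ (δ * (2 * (s + 1) * k + (s + 1))) *
        (n : ℝ) ^ ((σ + 3 * δ) * (2 * s * k)) * (n : ℝ) ^ ((2 : ℝ) * s + e) := by
        rw [h5]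
        apply mul_le_mul_of_nonneg_right _ (by positivity)
        apply mul_le_mul _ hxp (by positivity) (by positivity)
        exact mul_le_mul hb2 hKp (by positivity) (by positivity)
    _ ≤ (n : ℝ) ^ (300 : ℝ) := h6
    _ = (n : ℝ) ^ 300 := by
        rw [← Real.rpow_natCast]
        norm_num

/-- the last factor of the size without zero tests -/
lemma fac_zero {s K n c : ℕ} (hn1 : (1 : ℝ) ≤ n) (hK1 : (1 : ℝ) ≤ K) :
    (n : ℝ) ^ c + s * K + 1 ≤ (s + 2) * (K : ℝ) ^ (s + 1) * (n : ℝ) ^ c := by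
  have hnc : (1 : ℝ) ≤ (n : ℝ) ^ c := one_le_pow₀ hn1
  have hKs : (K : ℝ) ≤ (K : ℝ) ^ (s + 1) := le_self_pow₀ hK1 (by omega)
  have h2 : (n : ℝ) ^ c ≤ K * (n : ℝ) ^ c := le_mul_of_one_le_left (by positivity) hK1
  have h3 : (s : ℝ) * K ≤ s * (K * (n : ℝ) ^ c) := by
    apply mul_le_mul_of_nonneg_left _ (by positivity)
    exact le_mul_of_one_le_right (by positivity) hnc
  have h4 : (1 : ℝ) ≤ K * (n : ℝ) ^ c := one_le_mul_of_one_le_of_one_le hK1 hnc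
  calc (n : ℝ) ^ c + s * K + 1 ≤ (s + 2) * K * (n : ℝ) ^ c := by nlinarith
    _ ≤ (s + 2) * (K : ℝ) ^ (s + 1) * (n : ℝ) ^ c := by
        apply mul_le_mul_of_nonneg_right _ (by positivity)
        exact mul_le_mul_of_nonneg_left hKs (by positivity)

/-- the last factor of the size with zero tests -/
lemma fac_pos {s K n c : ℕ} (hn1 : (1 : ℝ) ≤ n) (hK1 : (1 : ℝ) ≤ K) :
    (n : ℝ) ^ c + s * K * (2 * (3 * (n : ℝ) ^ (2 * s + 7) * (2 * K + 1) ^ s *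
      (2 * (n : ℝ) ^ c + 1)) + 1) + 1 ≤
      (19 * s * 3 ^ s + 2) * (K : ℝ) ^ (s + 1) * (n : ℝ) ^ (2 * s + 7 + c) := by
  have hnc : (1 : ℝ) ≤ (n : ℝ) ^ c := one_le_pow₀ hn1
  have hnb : (1 : ℝ) ≤ (n : ℝ) ^ (2 * s + 7) := one_le_pow₀ hn1
  have hKs : (1 : ℝ) ≤ (K : ℝ) ^ s := one_le_pow₀ hK1
  have hKs1 : (1 : ℝ) ≤ (K : ℝ) ^ (s + 1) := one_le_pow₀ hK1
  have h3s : (1 : ℝ) ≤ 3 ^ s := one_le_pow₀ (by norm_num)
  have h1 : (2 * (K : ℝ) + 1) ^ s ≤ 3 ^ s * (K : ℝ) ^ s := by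
    rw [← mul_pow]
    exact pow_le_pow_left₀ (by positivity) (by linarith) _
  have h2 : 2 * (n : ℝ) ^ c + 1 ≤ 3 * (n : ℝ) ^ c := by linarith
  set P : ℝ := (n : ℝ) ^ (2 * s + 7 + c) with hP
  have hPe : P = (n : ℝ) ^ (2 * s + 7) * (n : ℝ) ^ c := by rw [hP, pow_add]
  have hP1 : (1 : ℝ) ≤ P := one_le_pow₀ hn1
  have hncP : (n : ℝ) ^ c ≤ P := by
    rw [hPe]
    exact le_mul_of_one_le_left (by positivity) hnb
  have h3 : 3 * (n : ℝ) ^ (2 * s + 7) * (2 * K + 1) ^ s * (2 * (n : ℝ) ^ c + 1) ≤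
      9 * (3 ^ s * (K : ℝ) ^ s) * P := by
    calc 3 * (n : ℝ) ^ (2 * s + 7) * (2 * K + 1) ^ s * (2 * (n : ℝ) ^ c + 1)
        ≤ 3 * (n : ℝ) ^ (2 * s + 7) * (3 ^ s * (K : ℝ) ^ s) * (3 * (n : ℝ) ^ c) := by
          apply mul_le_mul _ h2 (by positivity) (by positivity)
          exact mul_le_mul_of_nonneg_left h1 (by positivity)
      _ = 9 * (3 ^ s * (K : ℝ) ^ s) * P := by rw [hPe]; ring
  set Z : ℝ := 3 ^ s * (K : ℝ) ^ s * P with hZ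
  have hZ1 : (1 : ℝ) ≤ Z := by
    rw [hZ]
    have := one_le_mul_of_one_le_of_one_le h3s hKs
    exact one_le_mul_of_one_le_of_one_le this hP1
  have h4 : 2 * (3 * (n : ℝ) ^ (2 * s + 7) * (2 * K + 1) ^ s * (2 * (n : ℝ) ^ c + 1)) + 1 ≤
      19 * Z := by
    have h5 : 9 * (3 ^ s * (K : ℝ) ^ s) * P = 9 * Z := by rw [hZ]; ring
    linarith
  have h5 : (s : ℝ) * K * (2 * (3 * (n : ℝ) ^ (2 * s + 7) * (2 * K + 1) ^ s *
      (2 * (n : ℝ) ^ c + 1)) + 1) ≤ 19 * s * 3 ^ s * (K : ℝ) ^ (s + 1) * P := by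
    calc _ ≤ (s : ℝ) * K * (19 * Z) := mul_le_mul_of_nonneg_left h4 (by positivity)
      _ = _ := by rw [hZ, pow_succ (K : ℝ)]; ring
  have h6 : (n : ℝ) ^ c + 1 ≤ 2 * (K : ℝ) ^ (s + 1) * P := by
    have h7 : P ≤ (K : ℝ) ^ (s + 1) * P := le_mul_of_one_le_left (by positivity) hKs1
    nlinarith
  calc _ = ((n : ℝ) ^ c + 1) + (s : ℝ) * K * (2 * (3 * (n : ℝ) ^ (2 * s + 7) *
        (2 * K + 1) ^ s * (2 * (n : ℝ) ^ c + 1)) + 1) := by ring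
    _ ≤ 2 * (K : ℝ) ^ (s + 1) * P + 19 * s * 3 ^ s * (K : ℝ) ^ (s + 1) * P := add_le_add h6 h5
    _ = _ := by ring

/-- ZT-6: the asymptotic form (from the quantitative form `hq`) -/
theorem asymptotic3_of
    (hq : ∀ n s K C d N D W R k x : ℕ, 3 ≤ n → 1 ≤ s → 1 ≤ K → 1 ≤ k → s ≤ x →
      16 * n ^ 4 * W ≤ 2 ^ x →
      (d ≠ 0 → 3 * n ^ (2 * s + 7) * (2 * K + 1) ^ s * (2 * C + 1) ≤ N) →
      (3 * s * K) ^ (2 * (s + 1) * k) * x ^ (2 * s * k) * n ^ (2 * s) *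
        (C + s * K * (2 * N + 1) + 1) ≤ n ^ 300 →
      ∀ A : Alg n D W R (MixQ n s K C d) SignType, A.Decides (mixFam n s K C d) →
        (n : ℝ) ^ (3 - 1 / (k : ℝ)) ≤
          (2 ^ 13 * Real.logb 2 n) ^ (2 * k) * s * x * (2 * d + 1) * D)
    (s c : ℕ) (hs : 1 ≤ s) (σ ε : ℝ) (hσ : 0 ≤ σ) (hε : 0 < ε)
    (hgap : 2 * (s : ℝ) + c + 2 * s * σ * (1 / ε + 1) < 300) :
    ∃ δ : ℝ, 0 < δ ∧ ∃ n₀ : ℕ, ∀ n : ℕ, n₀ ≤ n → ∀ K d D W R : ℕ, 1 ≤ K →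
      (K : ℝ) ≤ (n : ℝ) ^ δ → (d : ℝ) ≤ (n : ℝ) ^ δ →
      (d = 0 ∨ 4 * (s : ℝ) + c + 7 + 2 * s * σ * (1 / ε + 1) < 300) →
      Real.logb 2 W ≤ (n : ℝ) ^ σ →
      ∀ A : Alg n D W R (MixQ n s K (n ^ c) d) SignType, A.Decides (mixFam n s K (n ^ c) d) →
        (n : ℝ) ^ (3 - ε) ≤ D * (1 + Real.logb 2 W) := by
  have hs1 : (1 : ℝ) ≤ s := by exact_mod_cast hs
  -- the number of levels
  obtain ⟨k, hkdef⟩ : ∃ k : ℕ, k = ⌊1 / ε⌋₊ + 1 := ⟨_, rfl⟩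
  have hk1 : 1 ≤ k := by omega
  have hk0 : (0 : ℝ) < k := by
    have : 0 < k := hk1
    exact_mod_cast this
  have hk1r : (1 : ℝ) ≤ k := by exact_mod_cast hk1
  have hklt : 1 / ε < k := by
    rw [hkdef]; push_cast
    exact Nat.lt_floor_add_one _
  have hkle : (k : ℝ) ≤ 1 / ε + 1 := by
    rw [hkdef]; push_cast
    have := Nat.floor_le (show 0 ≤ 1 / ε by positivity)
    linarith
  have hkε : 1 / (k : ℝ) < ε := by
    rw [div_lt_iff₀ hk0]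
    rw [div_lt_iff₀ hε] at hklt
    linarith
  set η : ℝ := ε - 1 / k with hη
  have hη0 : 0 < η := by rw [hη]; linarith
  have hsk : 2 * (s : ℝ) * σ * k ≤ 2 * s * σ * (1 / ε + 1) :=
    mul_le_mul_of_nonneg_left hkle (by positivity)
  set gap : ℝ := 300 - 2 * s - c - 2 * s * σ * k with hgapdef
  have hgap0 : 0 < gap := by rw [hgapdef]; linarith
  set gap' : ℝ := 300 - 2 * s - ((2 * s + 7 + c : ℕ) : ℝ) - 2 * s * σ * k with hgapdef'
  set gap2 : ℝ := if 0 < gap' then gap' else 1 with hgap2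
  have hgap20 : 0 < gap2 := by
    rw [hgap2]
    split_ifs with h
    · exact h
    · norm_num
  set q : ℝ := 1 + (2 * (s + 1) * k + (s + 1)) + 6 * s * k with hqd
  have hq0 : 0 < q := by rw [hqd]; positivity
  set δ : ℝ := min (η / (2 * k + 4)) (min (gap / q) (gap2 / q)) with hδ
  have hδ0 : 0 < δ := lt_min (by positivity) (lt_min (by positivity) (by positivity))
  have hδ1 : δ * (2 * k + 4) ≤ η := by
    have h1 : δ ≤ η / (2 * k + 4) := min_le_left _ _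
    rwa [le_div_iff₀ (by positivity)] at h1
  have hδ2 : δ * q ≤ gap := by
    have h1 : δ ≤ gap / q := (min_le_right _ _).trans (min_le_left _ _)
    rwa [le_div_iff₀ hq0] at h1
  have hδ3 : δ * q ≤ gap2 := by
    have h1 : δ ≤ gap2 / q := (min_le_right _ _).trans (min_le_right _ _)
    rwa [le_div_iff₀ hq0] at h1
  refine ⟨δ, hδ0, ?_⟩
  -- the threshold
  set B1 : ℝ := s + 5 + 8 / δ with hB1
  set B2 : ℝ := (3 * (s : ℝ)) ^ (2 * (s + 1) * k) * (s + 2) with hB2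
  set B2' : ℝ := (3 * (s : ℝ)) ^ (2 * (s + 1) * k) * (19 * s * 3 ^ s + 2) with hB2'
  set B3 : ℝ := (2 ^ 14 / δ) ^ (2 * k) * s * 3 with hB3
  have hB10 : 0 ≤ B1 := by positivity
  have hB20 : 0 ≤ B2 := by positivity
  have hB20' : 0 ≤ B2' := by positivity
  have hB30 : 0 ≤ B3 := by positivity
  set B : ℝ := max 2 (max B1 (max B2 (max B2' B3))) with hB
  have hB0 : 0 ≤ B := le_trans (by norm_num) (le_max_left _ _)
  obtain ⟨n₀, hn₀⟩ : ∃ n₀ : ℕ, max 3 (B ^ (1 / δ)) ≤ n₀ := exists_nat_ge _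
  refine ⟨n₀, ?_⟩
  intro n hn K d D W R hK hKn hdn hdc hWn A hA
  have hnR : (n₀ : ℝ) ≤ n := by exact_mod_cast hn
  have hn3 : (3 : ℝ) ≤ n := (le_max_left _ _).trans (hn₀.trans hnR)
  have hn3' : 3 ≤ n := by exact_mod_cast hn3
  have hn1 : (1 : ℝ) ≤ n := by linarith
  have hn0 : (0 : ℝ) < n := by linarith
  have hbB : B ≤ (n : ℝ) ^ δ := by
    have h1 : B ^ (1 / δ) ≤ n := (le_max_right _ _).trans (hn₀.trans hnR)
    calc B = (B ^ (1 / δ)) ^ δ := by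
          rw [← Real.rpow_mul hB0, one_div, inv_mul_cancel₀ hδ0.ne', Real.rpow_one]
      _ ≤ (n : ℝ) ^ δ := Real.rpow_le_rpow (by positivity) h1 hδ0.le
  have hb0 : 2 ≤ (n : ℝ) ^ δ := (le_max_left _ _).trans hbB
  have hb1 : B1 ≤ (n : ℝ) ^ δ := ((le_max_left _ _).trans (le_max_right _ _)).trans hbB
  have hb2 : B2 ≤ (n : ℝ) ^ δ :=
    (((le_max_left _ _).trans (le_max_right _ _)).trans (le_max_right _ _)).trans hbB
  have hb2' : B2' ≤ (n : ℝ) ^ δ :=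
    ((((le_max_left _ _).trans (le_max_right _ _)).trans (le_max_right _ _)).trans
      (le_max_right _ _)).trans hbB
  have hb3 : B3 ≤ (n : ℝ) ^ δ :=
    ((((le_max_right _ _).trans (le_max_right _ _)).trans (le_max_right _ _)).trans
      (le_max_right _ _)).trans hbB
  have hK1 : (1 : ℝ) ≤ K := by exact_mod_cast hK
  have hnδ1 : 1 ≤ (n : ℝ) ^ δ := by linarith
  have hnσ1 : 1 ≤ (n : ℝ) ^ σ := Real.one_le_rpow hn1 hσ
  -- logarithms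
  have hW : 1 ≤ W := by
    have h1 := (A.init (fun _ _ => false) (fun _ => false)).isLt
    omega
  have hW1 : (1 : ℝ) ≤ W := by exact_mod_cast hW
  have hlogW : 0 ≤ Real.logb 2 W := Real.logb_nonneg (by norm_num) hW1
  have hlogn0 : 0 ≤ Real.logb 2 n := Real.logb_nonneg (by norm_num) hn1
  have hlogn : Real.logb 2 n ≤ 2 / δ * (n : ℝ) ^ δ := logb_le hn0 hδ0
  set lam : ℝ := 1 + Real.logb 2 W with hlam
  have hlam1 : 1 ≤ lam := by rw [hlam]; linarith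
  -- the parameter `x`
  obtain ⟨x, hxdef⟩ : ∃ x, x = s + Nat.clog 2 (16 * n ^ 4 * W) := ⟨_, rfl⟩
  have hsx : s ≤ x := by omega
  have hpow : 16 * n ^ 4 * W ≤ 2 ^ x := by
    calc 16 * n ^ 4 * W ≤ 2 ^ Nat.clog 2 (16 * n ^ 4 * W) := Nat.le_pow_clog (by norm_num) _
      _ ≤ 2 ^ x := Nat.pow_le_pow_right (by norm_num) (by omega)
  have hx1 : (1 : ℝ) ≤ x := by
    have : 1 ≤ x := by omega
    exact_mod_cast this
  have hxle : (x : ℝ) ≤ (n : ℝ) ^ (2 * δ) * lam := by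
    rw [hxdef, hlam]
    exact x_le hn1 (by omega) hW hδ0 hb1
  have hxle2 : (x : ℝ) ≤ (n : ℝ) ^ (σ + 3 * δ) := by
    have h1 : lam ≤ (n : ℝ) ^ δ * (n : ℝ) ^ σ := by
      calc lam ≤ 1 + (n : ℝ) ^ σ := by rw [hlam]; linarith
        _ ≤ 2 * (n : ℝ) ^ σ := by linarith
        _ ≤ (n : ℝ) ^ δ * (n : ℝ) ^ σ := mul_le_mul_of_nonneg_right hb0 (by positivity)
    calc (x : ℝ) ≤ (n : ℝ) ^ (2 * δ) * lam := hxle
      _ ≤ (n : ℝ) ^ (2 * δ) * ((n : ℝ) ^ δ * (n : ℝ) ^ σ) :=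
          mul_le_mul_of_nonneg_left h1 (by positivity)
      _ = (n : ℝ) ^ (σ + 3 * δ) := by
          rw [← Real.rpow_add hn0, ← Real.rpow_add hn0]
          ring_nf
  -- the size condition
  have key : (n : ℝ) ^ (3 - 1 / (k : ℝ)) ≤
      (2 ^ 13 * Real.logb 2 n) ^ (2 * k) * s * x * (2 * d + 1) * D := by
    by_cases hd : d = 0
    · apply hq n s K (n ^ c) d 0 D W R k x hn3' hs hK hk1 hsx hpow (fun h => absurd hd h) _ A hA
      have hreal := size_real3 (s := s) (k := k) (K := K) (x := x) (e := c) (σ := σ) (δ := δ)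
        (Bc := (s + 2 : ℝ)) (F := (n : ℝ) ^ c + s * K + 1) hn1 hK1 hKn hxle2
        (fac_zero hn1 hK1) (by positivity) hb2
        (by rw [hgapdef, hqd] at hδ2; exact hδ2)
      have h1 : n ^ c + s * K * (2 * 0 + 1) + 1 = n ^ c + s * K + 1 := by ring
      rw [h1]
      exact_mod_cast hreal
    · apply hq n s K (n ^ c) d (3 * n ^ (2 * s + 7) * (2 * K + 1) ^ s * (2 * n ^ c + 1)) D W R k x
        hn3' hs hK hk1 hsx hpow (fun _ => le_rfl) _ A hA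
      have hg0 : 0 < gap' := by
        rcases hdc with h | h
        · exact absurd h hd
        · rw [hgapdef']
          push_cast
          linarith
      have hg1 : gap2 = gap' := by rw [hgap2, if_pos hg0]
      rw [hg1] at hδ3
      have hreal := size_real3 (s := s) (k := k) (K := K) (x := x) (e := 2 * s + 7 + c)
        (σ := σ) (δ := δ)
        (Bc := (19 * s * 3 ^ s + 2 : ℝ)) (F := (n : ℝ) ^ c + s * K * (2 * (3 *
          (n : ℝ) ^ (2 * s + 7) * (2 * K + 1) ^ s * (2 * (n : ℝ) ^ c + 1)) + 1) + 1)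
        hn1 hK1 hKn hxle2
        (fac_pos hn1 hK1) (by positivity) hb2'
        (by rw [hgapdef', hqd] at hδ3; exact hδ3)
      exact_mod_cast hreal
  have hD0 : (0 : ℝ) ≤ D := Nat.cast_nonneg D
  have hd3 : 2 * (d : ℝ) + 1 ≤ 3 * (n : ℝ) ^ δ := by linarith
  have hd0 : (0 : ℝ) ≤ 2 * (d : ℝ) + 1 := by positivity
  -- the main inequality
  have h1 : (2 ^ 13 * Real.logb 2 n) ^ (2 * k) * s * 3 ≤ (n : ℝ) ^ (δ + 2 * k * δ) := by
    have h2 : 2 ^ 13 * Real.logb 2 n ≤ 2 ^ 14 / δ * (n : ℝ) ^ δ := by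
      calc 2 ^ 13 * Real.logb 2 n ≤ 2 ^ 13 * (2 / δ * (n : ℝ) ^ δ) := by linarith
        _ = 2 ^ 14 / δ * (n : ℝ) ^ δ := by ring
    have h3 : ((n : ℝ) ^ δ) ^ (2 * k) = (n : ℝ) ^ (2 * k * δ) := by
      rw [← Real.rpow_natCast ((n : ℝ) ^ δ), ← Real.rpow_mul hn0.le]
      push_cast
      ring_nf
    calc (2 ^ 13 * Real.logb 2 n) ^ (2 * k) * s * 3
        ≤ (2 ^ 14 / δ * (n : ℝ) ^ δ) ^ (2 * k) * s * 3 := by
          apply mul_le_mul_of_nonneg_right _ (by norm_num)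
          apply mul_le_mul_of_nonneg_right _ (by positivity)
          exact pow_le_pow_left₀ (by positivity) h2 _
      _ = B3 * (n : ℝ) ^ (2 * k * δ) := by rw [mul_pow, h3, hB3]; ring
      _ ≤ (n : ℝ) ^ δ * (n : ℝ) ^ (2 * k * δ) :=
          mul_le_mul_of_nonneg_right hb3 (by positivity)
      _ = (n : ℝ) ^ (δ + 2 * k * δ) := by rw [← Real.rpow_add hn0]
  have hx0 : (0 : ℝ) ≤ x := by linarith
  have h2 : (n : ℝ) ^ (3 - 1 / (k : ℝ)) ≤ (n : ℝ) ^ (δ * (2 * k + 4)) * (D * lam) := by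
    calc (n : ℝ) ^ (3 - 1 / (k : ℝ)) ≤
          (2 ^ 13 * Real.logb 2 n) ^ (2 * k) * s * x * (2 * d + 1) * D := key
      _ ≤ (2 ^ 13 * Real.logb 2 n) ^ (2 * k) * s * x * (3 * (n : ℝ) ^ δ) * D := by
          apply mul_le_mul_of_nonneg_right _ hD0
          exact mul_le_mul_of_nonneg_left hd3 (by positivity)
      _ = ((2 ^ 13 * Real.logb 2 n) ^ (2 * k) * s * 3) * x * (n : ℝ) ^ δ * D := by ring
      _ ≤ (n : ℝ) ^ (δ + 2 * k * δ) * ((n : ℝ) ^ (2 * δ) * lam) * (n : ℝ) ^ δ * D := by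
          apply mul_le_mul_of_nonneg_right _ hD0
          apply mul_le_mul_of_nonneg_right _ (by positivity)
          exact mul_le_mul h1 hxle (by positivity) (by positivity)
      _ = ((n : ℝ) ^ (δ + 2 * k * δ) * (n : ℝ) ^ (2 * δ) * (n : ℝ) ^ δ) * (D * lam) := by ring
      _ = (n : ℝ) ^ (δ * (2 * k + 4)) * (D * lam) := by
          rw [← Real.rpow_add hn0, ← Real.rpow_add hn0]
          ring_nf
  have h3 : (n : ℝ) ^ (3 - ε) * (n : ℝ) ^ (δ * (2 * k + 4)) ≤ (n : ℝ) ^ (3 - 1 / (k : ℝ)) := by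
    rw [← Real.rpow_add hn0]
    apply Real.rpow_le_rpow_of_exponent_le hn1
    rw [hη] at hδ1
    linarith
  have h4 : 0 < (n : ℝ) ^ (δ * (2 * k + 4)) := by positivity
  have h5 : (n : ℝ) ^ (3 - ε) * (n : ℝ) ^ (δ * (2 * k + 4)) ≤
      (D * lam) * (n : ℝ) ^ (δ * (2 * k + 4)) := by
    calc _ ≤ _ := h3
      _ ≤ (n : ℝ) ^ (δ * (2 * k + 4)) * (D * lam) := h2
      _ = (D * lam) * (n : ℝ) ^ (δ * (2 * k + 4)) := mul_comm _ _
  exact le_of_mul_le_mul_right h5 h4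

end Pool.Agent.Helper7.ZT
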